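import Pool.Agent.H525.ISO.Stm

set_option autoImplicit false

/-! # Coincidences of residues modulo two primes of degree one (helper200)

If an algebraic integer `x` is congruent to the same integer modulo two different prime ideals of the same
prime norm `p`, then `p` divides the discriminant of `1, x, …, x ^ (d - 1)`. -/

namespace Pool.Agent.H200.ISO

open Finset NumberField Polynomial
open Pool.Agent.H525.ISO

open scoped Classical

/-- an integer in an ideal of prime norm `p` is a multiple of `p` -/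
theorem coin_dvd {K : Type} [Field K] [NumberField K] (P : Ideal (𝓞 K))
    (hP : (Ideal.absNorm P).Prime) (a : ℤ) (ha : (a : 𝓞 K) ∈ P) : ((Ideal.absNorm P : ℕ) : ℤ) ∣ a := by
  by_contra hd
  have hco : IsCoprime ((Ideal.absNorm P : ℕ) : ℤ) a :=
    (Prime.coprime_iff_not_dvd (Nat.prime_iff_prime_int.mp hP)).mpr hd
  obtain ⟨u, v, huv⟩ := hco
  have h1 : (1 : 𝓞 K) ∈ P := by
    have h2 : ((u * ((Ideal.absNorm P : ℕ) : ℤ) + v * a : ℤ) : 𝓞 K) ∈ P := by
      push_cast
      exact P.add_mem (P.mul_mem_left _ (Ideal.absNorm_mem P)) (P.mul_mem_left _ ha)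
    rw [huv] at h2
    simpa using h2
  have h3 : P = ⊤ := (Ideal.eq_top_iff_one P).mpr h1
  rw [h3, Ideal.absNorm_top] at hP
  exact Nat.not_prime_one hP

/-- the main step: one inclusion of ideals -/
theorem coin_le {K : Type} [Field K] [NumberField K] (x : 𝓞 K) (D : ℤ)
    (hD : ∀ t : 𝓞 K, ∃ f : ℤ[X], (D : 𝓞 K) * t = aeval x f)
    (P P' : Ideal (𝓞 K)) (r : ℤ) (hP : (Ideal.absNorm P).Prime)
    (hPP : Ideal.absNorm P' = Ideal.absNorm P) (h1 : x - (r : 𝓞 K) ∈ P) (h2 : x - (r : 𝓞 K) ∈ P')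
    (hn : ¬ ((Ideal.absNorm P : ℕ) : ℤ) ∣ D) : P ≤ P' := by
  intro t ht
  obtain ⟨f, hf⟩ := hD t
  have key : (x - (r : 𝓞 K)) ∣ aeval x f - ((f.eval r : ℤ) : 𝓞 K) := by
    have h3 := Polynomial.sub_dvd_eval_sub x (r : 𝓞 K) (f.map (algebraMap ℤ (𝓞 K)))
    rw [Polynomial.eval_map_algebraMap, Polynomial.eval_map_algebraMap] at h3
    have h4 : aeval (r : 𝓞 K) f = ((f.eval r : ℤ) : 𝓞 K) := by
      have := Polynomial.aeval_algebraMap_apply (𝓞 K) r f
      simpa using this
    rwa [h4] at h3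
  have h5 : ((f.eval r : ℤ) : 𝓞 K) ∈ P := by
    have h6 : aeval x f ∈ P := by rw [← hf]; exact P.mul_mem_left _ ht
    have h7 := P.mem_of_dvd key h1
    have := P.sub_mem h6 h7
    simpa using this
  have h8 := coin_dvd P hP _ h5
  have h9 : ((f.eval r : ℤ) : 𝓞 K) ∈ P' := by
    obtain ⟨c, hc⟩ := h8
    rw [hc]
    push_cast
    refine P'.mul_mem_right _ ?_
    rw [← hPP]
    exact Ideal.absNorm_mem P'
  have h10 : (D : 𝓞 K) * t ∈ P' := by
    rw [hf]
    have := P'.add_mem (P'.mem_of_dvd key h2) h9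
    simpa using this
  have hprime : P'.IsPrime := by
    apply Ideal.isPrime_of_irreducible_absNorm
    rw [hPP]
    exact hP
  rcases hprime.mem_or_mem h10 with h11 | h11
  · exfalso
    apply hn
    have := coin_dvd P' (by rw [hPP]; exact hP) D h11
    rwa [hPP] at this
  · exact h11

theorem t_COIN : S_COIN := by
  intro K _ _
  let d := Module.finrank ℚ K
  refine ⟨2 ^ (2 * (d * d)), 2 * (d * d), one_le_pow₀ (by norm_num), ?_⟩
  intro x B hB hxB hx
  have hint : IsIntegral ℤ (x : K) := x.2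
  -- the power basis
  have hadj : IntermediateField.adjoin ℚ {(x : K)} = ⊤ := by
    rw [Field.primitive_element_iff_algHom_eq_of_eval' ℚ ℂ (fun y => IsAlgClosed.splits _)]
    intro σ τ h
    by_contra hne
    exact hx σ τ hne h
  have hint' : IsIntegral ℚ (x : K) := hint.tower_top
  have hadj' : Algebra.adjoin ℚ {(x : K)} = ⊤ := by
    rw [← IntermediateField.adjoin_simple_toSubalgebra_of_isAlgebraic hint'.isAlgebraic, hadj]
    rfl
  let pb : PowerBasis ℚ K := PowerBasis.ofAdjoinEqTop hint' hadj'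
  have hgen : pb.gen = (x : K) := PowerBasis.ofAdjoinEqTop_gen hint' hadj'
  have hdim : pb.dim = d := pb.finrank.symm
  -- the discriminant is an integer
  have hdi : IsIntegral ℤ (Algebra.discr ℚ pb.basis) := by
    apply Algebra.discr_isIntegral
    intro i
    rw [pb.basis_eq_pow, hgen]
    exact hint.pow _
  obtain ⟨D, hD⟩ := IsIntegrallyClosed.isIntegral_iff.mp hdi
  have hD' : ((D : ℤ) : ℚ) = Algebra.discr ℚ pb.basis := by simpa using hD
  have hDne : D ≠ 0 := by
    intro h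
    have := Algebra.discr_not_zero_of_basis ℚ pb.basis
    rw [← hD', h] at this
    simp at this
  have hmul : ∀ t : 𝓞 K, ∃ f : ℤ[X], (D : 𝓞 K) * t = aeval x f := by
    intro t
    have h1 := Algebra.discr_mul_isIntegral_mem_adjoin (R := ℤ) ℚ (B := pb) (by rw [hgen]; exact hint)
      (z := (t : K)) t.2
    rw [hgen, ← hD', Algebra.adjoin_singleton_eq_range_aeval] at h1
    obtain ⟨f, hf⟩ := h1
    refine ⟨f, ?_⟩
    apply RingOfIntegers.coe_injective
    have h2 : algebraMap (𝓞 K) K (aeval x f : 𝓞 K) = aeval (algebraMap (𝓞 K) K x) f :=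
      (Polynomial.aeval_algebraMap_apply K x f).symm
    have h3 : aeval (algebraMap (𝓞 K) K x) f = ((D : ℤ) : ℚ) • (algebraMap (𝓞 K) K t) := hf
    rw [h2, h3, map_mul, map_intCast, Algebra.smul_def]
    simp
  refine ⟨D.natAbs, Int.natAbs_ne_zero.mpr hDne, ?_, ?_⟩
  · -- the bound
    have hcard : Fintype.card (Fin pb.dim) = Fintype.card (K →ₐ[ℚ] ℂ) := by
      rw [Fintype.card_fin, hdim, AlgHom.card]
    let e : Fin pb.dim ≃ (K →ₐ[ℚ] ℂ) := Fintype.equivOfCardEq hcard
    have h1 := Algebra.discr_powerBasis_eq_prod ℚ ℂ pb e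
    rw [← hD', hgen] at h1
    have h2 : ((D.natAbs : ℕ) : ℝ) = ‖(algebraMap ℚ ℂ ((D : ℤ) : ℚ))‖ := by
      rw [Nat.cast_natAbs]
      simp
    rw [h2, h1, norm_prod]
    have h3 : ∀ i j : Fin pb.dim, ‖(e j (x : K) - e i (x : K)) ^ 2‖ ≤ (2 * B) ^ 2 := by
      intro i j
      rw [norm_pow]
      have := norm_sub_le (e j (x : K)) (e i (x : K))
      have a1 := hxB (e j)
      have a2 := hxB (e i)
      gcongr
      linarith
    have h4 : ∀ i : Fin pb.dim, ‖∏ j ∈ Ioi i, (e j (x : K) - e i (x : K)) ^ 2‖ ≤ (2 * B) ^ (2 * d) := by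
      intro i
      rw [norm_prod]
      calc ∏ j ∈ Ioi i, ‖(e j (x : K) - e i (x : K)) ^ 2‖ ≤ ∏ j ∈ Ioi i, (2 * B) ^ 2 :=
            Finset.prod_le_prod (fun _ _ => norm_nonneg _) (fun j _ => h3 i j)
        _ = (2 * B) ^ (2 * (Ioi i).card) := by rw [Finset.prod_const, pow_mul]
        _ ≤ (2 * B) ^ (2 * d) := by
            apply pow_le_pow_right₀ (by linarith)
            have h5 := Finset.card_le_univ (Ioi i)
            have h6 : Fintype.card (Fin pb.dim) = d := by rw [Fintype.card_fin, hdim]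
            omega
    calc ∏ i : Fin pb.dim, ‖∏ j ∈ Ioi i, (e j (x : K) - e i (x : K)) ^ 2‖
        ≤ ∏ _i : Fin pb.dim, (2 * B) ^ (2 * d) :=
          Finset.prod_le_prod (fun _ _ => norm_nonneg _) (fun i _ => h4 i)
      _ = (2 * B) ^ (2 * (d * d)) := by
          rw [Finset.prod_const, Finset.card_univ, Fintype.card_fin, hdim, ← pow_mul]
          ring_nf
      _ = 2 ^ (2 * (d * d)) * B ^ (2 * (d * d)) := mul_pow _ _ _
  · intro P P' r hP hPP hne h1 h2
    by_contra hn
    have hn' : ¬ ((Ideal.absNorm P : ℕ) : ℤ) ∣ D := by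
      intro h
      exact hn (by simpa using Int.natAbs_dvd_natAbs.mpr h)
    apply hne
    apply le_antisymm
    · exact coin_le x D hmul P P' r hP hPP h1 h2 hn'
    · exact coin_le x D hmul P' P r (by rw [hPP]; exact hP) hPP.symm h2 h1 (by rw [hPP]; exact hn')

end Pool.Agent.H200.ISO
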